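import Pool.Agent.TH719.ED.Main

set_option autoImplicit false

namespace Pool.Agent.Results.MP_f04817_lc.NoGeneratingSet

/-- An EDT0L system over the terminal alphabet `T`: a finite alphabet `V` containing (a copy of)
`T`, an axiom `ω`, and finitely many deterministic tables, each given by the images of the
letters. -/
structure EDT0LSystem (T : Type) where
  V : Type
  finV : Fintype V
  J : Type
  finJ : Fintype J
  ι : T → V
  inj : Function.Injective ι
  ω : List V
  h : J → V → List V

/-- The language of an EDT0L system: the words over the terminal alphabet obtained from the axiom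
by applying a finite sequence of tables. -/
def EDT0LSystem.language {T : Type} (H : EDT0LSystem T) : Language T :=
  {w | ∃ js : List H.J, js.foldl (fun u j => u.flatMap (H.h j)) H.ω = w.map H.ι}

/-- The letter `(x, false)` stands for the generator `x`, the letter `(x, true)` for its formal
inverse. -/
def val {X : Finset ℤ} (p : X × Bool) : ℤ := if p.2 then -(p.1 : ℤ) else (p.1 : ℤ)

/-- The word problem of the infinite cyclic group with respect to `X`. -/
def WP (X : Finset ℤ) : Language (X × Bool) := {w | (w.map val).sum = 0}

section

variable {X : Finset ℤ} (H : EDT0LSystem (X × Bool))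

/-- The letters of the second system. -/
abbrev Y (X : Finset ℤ) : Set (Multiplicative ℤ) :=
  {x | x ∈ X.map Multiplicative.ofAdd.toEmbedding ∨ x⁻¹ ∈ X.map Multiplicative.ofAdd.toEmbedding}

open Classical in
/-- The injection of the letters. -/
noncomputable def io (H : EDT0LSystem (X × Bool)) (g : Multiplicative ℤ) :
    H.V ⊕ Option (X × Bool) :=
  if h : ∃ p : X × Bool, Multiplicative.ofAdd (val p) = g then Sum.inr (some h.choose)
  else Sum.inr none

theorem exists_val {g : Multiplicative ℤ} (hg : g ∈ Y X) :
    ∃ p : X × Bool, Multiplicative.ofAdd (val p) = g := by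
  rcases hg with hg | hg
  · rw [Finset.mem_map] at hg
    obtain ⟨x, hx, rfl⟩ := hg
    exact ⟨(⟨x, hx⟩, false), by simp [val]⟩
  · rw [Finset.mem_map] at hg
    obtain ⟨x, hx, hxg⟩ := hg
    refine ⟨(⟨x, hx⟩, true), ?_⟩
    have : g = (Multiplicative.ofAdd x)⁻¹ := by
      rw [show Multiplicative.ofAdd x = g⁻¹ from hxg, inv_inv]
    rw [this]
    simp [val]

open Classical in
/-- A canonical letter with the same value. -/
noncomputable def rep (g : Multiplicative ℤ) (h : ∃ p : X × Bool, Multiplicative.ofAdd (val p) = g) :
    X × Bool := h.choose

theorem val_rep (g : Multiplicative ℤ) (h : ∃ p : X × Bool, Multiplicative.ofAdd (val p) = g) :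
    Multiplicative.ofAdd (val (rep g h)) = g := h.choose_spec

theorem io_eq {g : Multiplicative ℤ} (h : ∃ p : X × Bool, Multiplicative.ofAdd (val p) = g) :
    io H g = Sum.inr (some (rep g h)) := by
  unfold io rep
  rw [dif_pos h]

open Classical in
/-- The tables of the second system; the table `none` replaces terminal letters by the canonical
letters with the same value. -/
noncomputable def tb : Option H.J → H.V ⊕ Option (X × Bool) → List (H.V ⊕ Option (X × Bool))
  | some j, Sum.inl v => (H.h j v).map Sum.inl
  | none, Sum.inl v => if h : ∃ p, H.ι p = v then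
      [io H (Multiplicative.ofAdd (val h.choose))] else [Sum.inr none]
  | _, Sum.inr y => [Sum.inr y]

open Classical in
theorem tb_none_ι (p : X × Bool) :
    tb H none (Sum.inl (H.ι p)) = [io H (Multiplicative.ofAdd (val p))] := by
  have h : ∃ q, H.ι q = H.ι p := ⟨p, rfl⟩
  have h2 : h.choose = p := H.inj h.choose_spec
  change (if h : ∃ q, H.ι q = H.ι p then
      [io H (Multiplicative.ofAdd (val h.choose))] else [Sum.inr none]) = _
  rw [dif_pos h, h2]

open Classical in
theorem tb_none_neg {a : H.V} (h : ¬ ∃ p, H.ι p = a) :
    tb H none (Sum.inl a) = [Sum.inr none] := by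
  change (if h : ∃ q, H.ι q = a then
      [io H (Multiplicative.ofAdd (val h.choose))] else [Sum.inr none]) = _
  rw [dif_neg h]

/-- Iterated tables. -/
noncomputable abbrev it (js : List (Option H.J)) (u : List (H.V ⊕ Option (X × Bool))) :
    List (H.V ⊕ Option (X × Bool)) :=
  js.foldl (fun u j => u.flatMap (tb H j)) u

theorem it_inl (js : List H.J) (u : List H.V) :
    it H (js.map some) (u.map Sum.inl) =
      (js.foldl (fun u j => u.flatMap (H.h j)) u).map Sum.inl := by
  induction js generalizing u with
  | nil => rfl
  | cons j js ih =>
    change it H (js.map some) ((u.map Sum.inl).flatMap (tb H (some j))) = _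
    have : (u.map Sum.inl).flatMap (tb H (some j)) = (u.flatMap (H.h j)).map Sum.inl := by
      rw [List.flatMap_map, List.map_flatMap]
      rfl
    rw [this, ih]
    rfl

theorem it_inr (js : List (Option H.J)) (u : List (Option (X × Bool))) :
    it H js (u.map Sum.inr) = u.map Sum.inr := by
  induction js with
  | nil => rfl
  | cons j js ih =>
    change it H js ((u.map Sum.inr).flatMap (tb H j)) = _
    have : (u.map Sum.inr : List (H.V ⊕ Option (X × Bool))).flatMap (tb H j) = u.map Sum.inr := by
      rw [List.flatMap_map]
      have : ∀ y : Option (X × Bool), tb H j (Sum.inr y) = [Sum.inr y] := by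
        intro y
        cases j <;> rfl
      clear ih
      induction u with
      | nil => rfl
      | cons a u ih => rw [List.flatMap_cons, this, ih]; rfl
    rw [this, ih]

theorem split_js (js : List (Option H.J)) :
    (∃ ks : List H.J, js = ks.map some) ∨
      ∃ (ks : List H.J) (ls : List (Option H.J)), js = ks.map some ++ none :: ls := by
  induction js with
  | nil => exact Or.inl ⟨[], rfl⟩
  | cons j js ih =>
    cases j with
    | none => exact Or.inr ⟨[], js, rfl⟩
    | some j =>
      rcases ih with ⟨ks, rfl⟩ | ⟨ks, ls, rfl⟩
      · exact Or.inl ⟨j :: ks, rfl⟩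
      · exact Or.inr ⟨j :: ks, ls, rfl⟩

/-- The image of a word under the last table. -/
theorem last_table (u : List H.V) : ∃ v : List (Option (X × Bool)),
    (u.map Sum.inl).flatMap (tb H none) = v.map Sum.inr := by
  induction u with
  | nil => exact ⟨[], rfl⟩
  | cons a u ih =>
    obtain ⟨v, hv⟩ := ih
    rw [List.map_cons, List.flatMap_cons, hv]
    by_cases h : ∃ p, H.ι p = a
    · obtain ⟨p, rfl⟩ := h
      rw [tb_none_ι]
      have h2 : ∃ q : X × Bool, Multiplicative.ofAdd (val q) = Multiplicative.ofAdd (val p) :=
        ⟨p, rfl⟩
      exact ⟨some (rep _ h2) :: v, by rw [io_eq H h2]; rfl⟩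
    · refine ⟨none :: v, ?_⟩
      rw [tb_none_neg H h]
      rfl

theorem last_table_eq (u : List H.V) (w : List (Multiplicative ℤ)) (hw : ∀ x ∈ w, x ∈ Y X)
    (h : (u.map Sum.inl).flatMap (tb H none) = w.map (io H)) :
    ∃ p : List (X × Bool), u = p.map H.ι ∧ p.map (fun q => Multiplicative.ofAdd (val q)) = w := by
  induction u generalizing w with
  | nil =>
    cases w with
    | nil => exact ⟨[], rfl, rfl⟩
    | cons g w => simp at h
  | cons a u ih =>
    rw [List.map_cons, List.flatMap_cons] at h
    by_cases ha : ∃ p, H.ι p = a
    · obtain ⟨p, rfl⟩ := ha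
      rw [tb_none_ι] at h
      cases w with
      | nil => simp at h
      | cons g w =>
        rw [List.map_cons, List.singleton_append, List.cons.injEq] at h
        obtain ⟨q, hq1, hq2⟩ := ih w (fun x hx => hw x (by simp [hx])) h.2
        refine ⟨p :: q, by rw [hq1]; rfl, ?_⟩
        rw [List.map_cons, hq2]
        congr 1
        have h1 : ∃ q : X × Bool, Multiplicative.ofAdd (val q) = Multiplicative.ofAdd (val p) :=
          ⟨p, rfl⟩
        have h2 := exists_val (hw g (by simp))
        have h3 := h.1
        rw [io_eq H h1, io_eq H h2] at h3
        have h4 : rep (Multiplicative.ofAdd (val p)) h1 = rep g h2 := by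
          simpa using h3
        rw [← val_rep g h2, ← h4, val_rep]
    · exfalso
      rw [tb_none_neg H ha] at h
      cases w with
      | nil => simp at h
      | cons g w =>
        rw [List.map_cons, List.singleton_append, List.cons.injEq,
          io_eq H (exists_val (hw g (by simp)))] at h
        simp at h

theorem io_injOn : Set.InjOn (io H) (Y X) := by
  intro g hg g' hg' h
  rw [io_eq H (exists_val hg), io_eq H (exists_val hg')] at h
  have h4 : rep g (exists_val hg) = rep g' (exists_val hg') := by simpa using h
  rw [← val_rep g (exists_val hg), h4, val_rep]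

theorem sum_of_prod (p : List (X × Bool)) :
    (p.map (fun q => Multiplicative.ofAdd (val q))).prod = Multiplicative.ofAdd
      (p.map val).sum := by
  induction p with
  | nil => rfl
  | cons a p ih =>
    rw [List.map_cons, List.prod_cons, ih, List.map_cons, List.sum_cons]
    rfl

end

/-- The word problem of the infinite cyclic group is not EDT0L for any finite generating set. -/
theorem result : ∀ X : Finset ℤ, AddSubgroup.closure (X : Set ℤ) = ⊤ →
    ¬ ∃ H : EDT0LSystem (X × Bool), H.language = WP X := by
  classical
  rintro X hX ⟨H, hH⟩
  have := H.finV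
  have := H.finJ
  have hgen : Subgroup.closure
      ((X.map Multiplicative.ofAdd.toEmbedding : Finset (Multiplicative ℤ)) :
        Set (Multiplicative ℤ)) = ⊤ := by
    rw [eq_top_iff]
    intro g _
    have h1 : Multiplicative.toAdd g ∈ AddSubgroup.closure (X : Set ℤ) := by rw [hX]; trivial
    have h2 : ∀ x ∈ AddSubgroup.closure (X : Set ℤ), Multiplicative.ofAdd x ∈
        Subgroup.closure ((X.map Multiplicative.ofAdd.toEmbedding : Finset (Multiplicative ℤ)) :
          Set (Multiplicative ℤ)) := by
      intro x hx
      induction hx using AddSubgroup.closure_induction with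
      | mem x hx =>
        apply Subgroup.subset_closure
        simpa using hx
      | zero => exact Subgroup.one_mem _
      | add x y _ _ hx hy => exact Subgroup.mul_mem _ hx hy
      | neg x _ hx => exact Subgroup.inv_mem _ hx
    exact h2 _ h1
  have hfin : Finite (Multiplicative ℤ) := by
    refine Pool.Agent.TH719.ED.finite_of_edt0l (Multiplicative ℤ)
      (X.map Multiplicative.ofAdd.toEmbedding) hgen
      ⟨H.V ⊕ Option (X × Bool), inferInstance, Option H.J, inferInstance, io H,
        H.ω.map Sum.inl, tb H, io_injOn H, ?_⟩
    intro w hw
    constructor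
    · intro hprod
      have hrep : ∃ p : List (X × Bool),
          p.map (fun q => Multiplicative.ofAdd (val q)) = w := by
        clear hprod
        induction w with
        | nil => exact ⟨[], rfl⟩
        | cons g w ih =>
          obtain ⟨p, hp⟩ := ih (fun x hx => hw x (by simp [hx]))
          obtain ⟨q, hq⟩ := exists_val (X := X) (hw g (by simp))
          exact ⟨q :: p, by rw [List.map_cons, hp, hq]⟩
      obtain ⟨p, rfl⟩ := hrep
      have hp : p ∈ H.language := by
        rw [hH]
        change (p.map val).sum = 0
        rw [sum_of_prod] at hprod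
        exact hprod
      obtain ⟨js, hjs⟩ := hp
      refine ⟨js.map some ++ [none], ?_⟩
      rw [List.foldl_append]
      have := it_inl H js H.ω
      unfold it at this
      rw [this, hjs]
      change ((p.map H.ι).map Sum.inl).flatMap (tb H none) = _
      clear this hjs js hw hprod
      induction p with
      | nil => rfl
      | cons a p ih =>
        rw [List.map_cons, List.map_cons, List.flatMap_cons, ih, tb_none_ι]
        rfl
    · rintro ⟨js, hjs⟩
      rcases split_js H js with ⟨ks, rfl⟩ | ⟨ks, ls, rfl⟩
      · have h1 := it_inl H ks H.ω
        unfold it at h1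
        rw [h1] at hjs
        cases w with
        | nil => rfl
        | cons g w =>
          exfalso
          have h2 : io H g ∈ (ks.foldl (fun u j => u.flatMap (H.h j)) H.ω).map Sum.inl := by
            rw [hjs]; simp
          rw [io_eq H (exists_val (hw g (by simp)))] at h2
          simp at h2
      · rw [List.foldl_append, List.foldl_cons] at hjs
        have h1 := it_inl H ks H.ω
        unfold it at h1
        rw [h1] at hjs
        obtain ⟨v, hv⟩ := last_table H (ks.foldl (fun u j => u.flatMap (H.h j)) H.ω)
        have h2 := it_inr H ls v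
        unfold it at h2
        rw [hv, h2, ← hv] at hjs
        obtain ⟨p, hp1, hp2⟩ := last_table_eq H _ w hw hjs
        have hp : p ∈ H.language := ⟨ks, hp1⟩
        rw [hH] at hp
        rw [← hp2, sum_of_prod]
        exact congrArg Multiplicative.ofAdd (show (p.map val).sum = 0 from hp)
  have : Finite ℤ := Finite.of_equiv _ Multiplicative.toAdd
  exact not_finite ℤ

end Pool.Agent.Results.MP_f04817_lc.NoGeneratingSet
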